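import Pool.Agent.V5helper80.One.Fin
import Pool.Agent.N819.LT.Defs

/-!
# Labelled oriented trees whose Alexander determinant has low order or high degree

Definitions (`Pool.Agent.TH625.LOG.Core`, `.Tree`, `.LI`, `.Main`, `Pool.Agent.N819.LT.Defs` of the
starting library, `Pool.Agent.V5helper80.Rel.Stm`, `.Rel.Log` and `.One.Det`, `.One.Log`):

* `LOG V E`: a labelled oriented graph with vertices `V` and edges `E`, the edge `e` runs from `ini e` to
  `ter e` and has the label `lab e`, an arbitrary vertex; `L.G` is the group with generators `V` and
  relators `x_ini x_lab x_ter⁻¹ x_lab⁻¹`, the fundamental group of the 2-complex `K(L)` with one vertex,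
  1-cells `V` and 2-cells `E`; `L.Conn`: the graph is connected (it is a tree if it has moreover one
  vertex more than edges);
* `L.ContractibleWith v`: `K(L) ∪ f` is contractible, where the 2-cell `f` is attached along the
  1-cell `v`;
* `LocInd G`: every nontrivial finitely generated subgroup of `G` maps onto `ℤ`;
* for a function `c : V → I`, whose fibres are called classes: `Out L c`: the outer edges, whose two
  end points and label do not all belong to one class; `TreeP L c`: every nonempty class has one vertex
  more than there are edges whose end points and label belong to it (in a tree: the class is a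
  subtree and its labels belong to the class); `part L p`: the labelled oriented graph with the vertices
  `v` with `p v` and the edges whose end points and label have the property `p`;
* `alex σ ℚ i l t` for functions `i l t : E → I` and a bijection `σ` from `E` to the elements of `I`
  different from `r`: the determinant of the matrix over `ℚ[X]` with the rows
  `(δ_{l e} - δ_{t e}) + X (δ_{i e} - δ_{l e})`, `e : E`, where the column of `r` is deleted (for
  `i = ini`, `l = lab`, `t = ter` this is the Alexander polynomial of `L.G`, up to a unit of
  `ℤ[X, X⁻¹]`); `alexC L c σ`: this determinant for the outer edges and the classes, with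
  `i = c ∘ ini`, `l = c ∘ lab`, `t = c ∘ ter`.
-/

set_option autoImplicit false

namespace Pool.Agent.Results.MP_cf50d6_gt.AlexanderDeterminant

open Pool.Agent.TH625.LOG Pool.Agent.N819.LT Pool.Agent.V5helper80.Rel Pool.Agent.V5helper80.One

open Classical in
/-- Let `L` be a labelled oriented tree, so that `K(L)` is a subcomplex of a contractible 2-complex with
one more 2-cell (last part).  Its group `π_1(K(L))` is locally indicable if the Alexander determinant
is not divisible by `X ^ 2` or has at least the degree `n - 1`, where `n` is the number of edges; in
particular if the difference of the degree and of the order at zero is at least `n - 3`.  More generally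
this holds if the vertices are divided into classes which are subtrees containing their labels, with
locally indicable groups, and the determinant of the quotient has this property; it always has if
there are at most four classes. -/
theorem result (V E I : Type) [Fintype V] [Fintype E] [Fintype I] (L : LOG V E)
    (hL : L.Conn) (hcard : Fintype.card V = Fintype.card E + 1) :
    (∀ (r : V) (σ : E ≃ {x : V // x ≠ r}),
      ((alex σ ℚ L.ini L.lab L.ter).natTrailingDegree ≤ 1 ∨
        Fintype.card E ≤ (alex σ ℚ L.ini L.lab L.ter).natDegree + 1 ∨
        Fintype.card E ≤ (alex σ ℚ L.ini L.lab L.ter).natDegree -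
          (alex σ ℚ L.ini L.lab L.ter).natTrailingDegree + 3) → LocInd L.G) ∧
    (∀ c : V → I, Function.Surjective c → TreeP L c →
      (∀ v, LocInd (part L fun u => c u = c v).G) →
      (Fintype.card I ≤ 4 → LocInd L.G) ∧
      ∀ (r : I) (σ : Out L c ≃ {x : I // x ≠ r}),
        ((alexC L c σ).natTrailingDegree ≤ 1 ∨
          Fintype.card (Out L c) ≤ (alexC L c σ).natDegree + 1 ∨
          Fintype.card (Out L c) ≤ (alexC L c σ).natDegree -
            (alexC L c σ).natTrailingDegree + 3) → LocInd L.G) ∧
    ∀ v : V, L.ContractibleWith v := by
  refine ⟨fun r σ h => ?_, fun c hc hT hLI => ⟨fun h4 => ?_, fun r σ h => ?_⟩,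
    fun v => contractibleWith L hL hcard v⟩
  · refine locInd_lot L hL hcard r σ ?_
    have h2 := (alex σ ℚ L.ini L.lab L.ter).natTrailingDegree_le_natDegree
    omega
  · exact locInd_four L hL hcard c hc hT hLI h4
  · refine locInd_log L hL hcard c hc hT hLI r σ ?_
    have h2 := (alexC L c σ).natTrailingDegree_le_natDegree
    omega

end Pool.Agent.Results.MP_cf50d6_gt.AlexanderDeterminant
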