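import Pool.Agent.V5helper80.Rel.Inj
import Pool.Agent.N819.LT.Defs

/-!
# Injective labelled oriented trees have locally indicable groups

Definitions (`Pool.Agent.TH625.LOG.Core`, `.Tree`, `.LI`, `.Main`, `Pool.Agent.N819.LT.Defs` of the
starting library, and `Pool.Agent.V5helper80.Rel.Stm`):

* `LOG V E`: a labelled oriented graph with vertices `V` and edges `E`, the edge `e` runs from `ini e` to
  `ter e` and has the label `lab e`, an arbitrary vertex; `L.G` is the group with generators `V` and
  relators `x_ini x_lab x_ter⁻¹ x_lab⁻¹`, the fundamental group of the 2-complex `K(L)` with one vertex,
  1-cells `V` and 2-cells `E`; `L.Conn`: the graph is connected (it is a tree if it has moreover one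
  vertex more than edges);
* `sub L R`: only the 2-cells of `R ⊆ E` are kept (a subcomplex of `K(L)` with all the 1-cells);
* `L.ContractibleWith v`: `K(L) ∪ f` is contractible, where the 2-cell `f` is attached along the
  1-cell `v`;
* `LocInd G`: every nontrivial finitely generated subgroup of `G` maps onto `ℤ`;
* for a function `c : V → I`, whose fibres are called classes: `Outer L c e`: the two end points and the
  label of the edge `e` do not all belong to one class; `TreeP L c`: every nonempty class has one vertex
  more than there are edges whose end points and label belong to it (in a forest: the class is a
  subtree and its labels belong to the class); `InjP L c`: the labels of different outer edges belong to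
  different classes;
* `part L p`: the labelled oriented graph with the vertices `v` with `p v` and the edges whose end points
  and label have the property `p`.
-/

set_option autoImplicit false

namespace Pool.Agent.Results.MP_cf50d6_gt.InjectiveQuotients

open Pool.Agent.TH625.LOG Pool.Agent.N819.LT Pool.Agent.V5helper80.Rel

/-- Let `L` be a labelled oriented tree, so that `K(L)` is a subcomplex of a contractible 2-complex with
one more 2-cell (last part), and let `K` be the subcomplex of `K(L)` with the 2-cells of `R`. If different
2-cells of `K` have different labels (in particular if `L` is injective), then the fundamental group
of `K` is locally indicable. More generally, let the vertices be divided into classes which are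
subtrees of the forest `R` containing their labels; if the labels of different edges of `R` outside the
classes belong to different classes, and if the groups of the classes are locally indicable, then the
fundamental group of `K` is locally indicable. -/
theorem result (V E : Type) [Fintype V] [Fintype E] [DecidableEq V] (L : LOG V E)
    (hL : L.Conn) (hcard : Fintype.card V = Fintype.card E + 1) (R : Set E) [Fintype R] :
    (Set.InjOn L.lab R → LocInd (sub L R).G) ∧
    (∀ (I : Type) (c : V → I), TreeP (sub L R) c → InjP (sub L R) c →
      (∀ v, LocInd (part (sub L R) fun u => c u = c v).G) → LocInd (sub L R).G) ∧
    ∀ v : V, L.ContractibleWith v := by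
  have hF : Forest (sub L R).ini (sub L R).ter :=
    (forest_of_log L hL hcard).comap _ _ id Subtype.val Function.injective_id
      Subtype.val_injective (fun _ => rfl) (fun _ => rfl)
  refine ⟨fun h => locInd_of_lof _ hF fun e e' he => Subtype.ext (h e.2 e'.2 he), ?_,
    fun v => contractibleWith L hL hcard v⟩
  intro I c hT hI hLI
  exact locInd_quotient I _ V R (sub L R) c rfl hF hT hI hLI

end Pool.Agent.Results.MP_cf50d6_gt.InjectiveQuotients
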