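import Pool.Agent.V5helper80.Rt.Fin

/-!
# Labelled oriented trees in which no two edges have the same terminal vertex

Definitions (`Pool.Agent.TH625.LOG.Core`, `.Tree`, `.LI`, `.Main`, `Pool.Agent.N819.LT.Defs` of the
starting library, `Pool.Agent.V5helper80.Rt.Circ`, `.Rt.Away`, `.Rt.Lot`, `.Rt.Fin`):

* `LOG V E`: a labelled oriented graph with vertices `V` and edges `E`, the edge `e` runs from `ini e` to
  `ter e` and has the label `lab e`, an arbitrary vertex; `L.G` is the group with generators `V` and
  relators `x_ini x_lab x_ter⁻¹ x_lab⁻¹`, the fundamental group of the 2-complex `K(L)` with one vertex,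
  1-cells `V` and 2-cells `E`; `L.Conn`: the graph is connected (it is a tree if it has moreover one
  vertex more than edges); `sub L R`: all vertices and the edges of the set `R`; `rev L`: the initial
  and the terminal vertices are exchanged;
* `L.ContractibleWith v`: `K(L) ∪ f` is contractible, where the 2-cell `f` is attached along the
  1-cell `v`;
* `LocInd G`: every nontrivial finitely generated subgroup of `G` maps onto `ℤ`;
* `OneCirc M`: there is a vertex which belongs to every nonempty set `W` of vertices such that every
  vertex in `W` is the terminal vertex of an edge with label in `W`; if no two edges of the finite graph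
  `M` have the same terminal vertex, this means that the map `ter e ↦ lab e` has at most one circuit;
* `Lnk M`: the equivalence relation generated by the pairs `(ter e, lab e)`; its classes are called
  components;
* `Fwd M u v`: `v` belongs to the chain of labels of `u`, that is, `v` arises from `u` by applying the
  map `ter e ↦ lab e` several times (or not at all);
* `Dep M b n`: the edges of depth `n` over `b`: for `n = 0` the edges which end in the chain of labels
  of `ter b`, and for `n + 1` those of depth `n` and those which end in the chain of labels of the
  initial vertex of an edge of depth `n`;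
* `Sup M b`: the component of `ter b` and, if for all `m < n` the initial vertices of the edges of depth
  `m` over `b` belong to this component, the components of the initial vertices of the edges of depth
  `n` over `b`: the components which are met by the circuit of `b` and by its first exits;
* `Ords M B ρ q`: the set `B` contains exactly one edge of every circuit of the map `ter e ↦ lab e`,
  the numbers `ρ b`, `b ∈ B`, are different, and the vertex `q b` belongs to `Sup M b`, but not to
  `Sup M b'` for the edges `b'` of `B` with `ρ b' < ρ b`.
-/

set_option autoImplicit false

namespace Pool.Agent.Results.MP_cf50d6_gt.RootedOrientations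

open Pool.Agent.TH625.LOG Pool.Agent.N819.LT Pool.Agent.V5helper80.Rt

open Classical in
/-- Let `L` be a labelled oriented tree, so that `K(L)` is a subcomplex of a contractible 2-complex with
one more 2-cell (last part), and let `R` be a set of edges, no two of which have the same terminal
vertex, or no two of which have the same initial vertex (then `ini` and `ter` have to be exchanged in
what follows).  The fundamental group of the subcomplex of `K(L)` with the 1-cells `V` and the 2-cells
`R` is locally indicable if the circuits of the map `ter e ↦ lab e`, `e ∈ R`, can be numbered such that
the components which are met by a circuit and its first exits are not all met by the previous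
circuits and their first exits.  In particular it is locally indicable if there is at most one
circuit, for example if no edge of `R` is labelled with its terminal vertex and at most three terminal
vertices of edges of `R` are labels of edges of `R`. -/
theorem result (V E : Type) [Fintype V] [Fintype E] (L : LOG V E)
    (hL : L.Conn) (hcard : Fintype.card V = Fintype.card E + 1) :
    (∀ (R : Set E) (M : LOG V R), (M = sub L R ∨ M = sub (rev L) R) →
      Function.Injective M.ter →
      ((∃ (B : Set R) (ρ : R → ℕ) (q : R → V), Ords M B ρ q) ∨ OneCirc M ∨
        ((∀ e, M.lab e ≠ M.ter e) ∧ (Set.range M.lab ∩ Set.range M.ter).ncard ≤ 3)) →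
      LocInd (sub L R).G) ∧
    ∀ v : V, L.ContractibleWith v := by
  refine ⟨?_, fun v => contractibleWith L hL hcard v⟩
  have hV : Nonempty V := Fintype.card_pos_iff.1 (by omega)
  -- the statement for one of the two orientations
  have key : ∀ (L' : LOG V E), L'.Conn → ∀ R : Set E, Function.Injective (sub L' R).ter →
      ((∃ (B : Set R) (ρ : R → ℕ) (q : R → V), Ords (sub L' R) B ρ q) ∨ OneCirc (sub L' R) ∨
        ((∀ e, (sub L' R).lab e ≠ (sub L' R).ter e) ∧
          (Set.range (sub L' R).lab ∩ Set.range (sub L' R).ter).ncard ≤ 3)) →
      LocInd (sub L' R).G := by
    intro L' hL' R hinj h
    have h1 : ∃ (B : Set R) (ρ : R → ℕ) (q : R → V), Ords (sub L' R) B ρ q := by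
      rcases h with h | h | h
      · exact h
      · exact h.ords hinj
      · exact (oneCirc_of_card hV hinj h.1 h.2).ords hinj
    obtain ⟨B, ρ, q, h2⟩ := h1
    have h3 := wf_parent L' (Pool.Agent.V5helper80.Rel.forest_of_log L' hL' hcard)
    have h4 : WellFounded fun u v => ∃ e, (sub L' R).ini e = u ∧ (sub L' R).ter e = v := by
      refine Subrelation.wf ?_ h3
      rintro u v ⟨e, h5, h6⟩
      exact ⟨e.1, h5, h6⟩
    exact h2.locInd hinj h4 (sqs_sub L' hL' hcard R B)
  intro R M hM hinj h
  rcases hM with hM | hM
  · subst hM
    exact key L hL R hinj h
  · subst hM
    exact locInd_rev L R (key (rev L) (rev_conn L hL) R hinj h)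

end Pool.Agent.Results.MP_cf50d6_gt.RootedOrientations
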