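import Pool.Agent.V5helper80.Wt.Good
import Pool.Agent.N819.LT.Defs

/-!
# Labelled oriented trees with vertex weights

Definitions (`Pool.Agent.TH625.LOG.Core`, `.Tree`, `.LI`, `.Main`, `Pool.Agent.N819.LT.Defs` of the
starting library, `Pool.Agent.V5helper80.Rel.Stm`, `.Rel.Log`, `.One.Det`, `.One.Log`, `.Wt.Good`):

* `LOG V E`: a labelled oriented graph with vertices `V` and edges `E`, the edge `e` runs from `ini e` to
  `ter e` and has the label `lab e`, an arbitrary vertex; `L.G` is the group with generators `V` and
  relators `x_ini x_lab x_ter⁻¹ x_lab⁻¹`, the fundamental group of the 2-complex `K(L)` with one vertex,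
  1-cells `V` and 2-cells `E`; `L.Conn`: the graph is connected (it is a tree if it has moreover one
  vertex more than edges);
* `L.ContractibleWith v`: `K(L) ∪ f` is contractible, where the 2-cell `f` is attached along the
  1-cell `v`;
* `LocInd G`: every nontrivial finitely generated subgroup of `G` maps onto `ℤ`;
* for a function `c : V → I`, whose fibres are called classes: `Out L c`: the outer edges, whose two
  end points and label do not all belong to one class; `TreeP L c`: every nonempty class has one vertex
  more than there are edges whose end points and label belong to it (in a tree: the class is a
  subtree and its labels belong to the class); `part L p`: the labelled oriented graph with the vertices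
  `v` with `p v` and the edges whose end points and label have the property `p`;
* `Least i l t r q S e v m` for functions `i l t : E → I`, `S : I → ℕ`: the least one of the numbers
  `S (l e)`, `S (t e)`, `q + S (i e)`, where those of the three vertices `l e`, `t e`, `i e` which are
  equal to `r` are left out, is `m`, and it is attained only once, by the vertex `v`;
* `Good i l t r d`: for some `q > 0` and some weights `S` every relation has a unique lightest vertex
  in this sense, and these lightest vertices are all vertices different from `r`, or all with one
  exception, and in the latter case
  `q * d + ∑ v ≠ r, S v ≤ ∑ e, m e + q`, where `m e` is the least weight for `e`;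
* `alex σ ℚ i l t` for a bijection `σ` from `E` to the elements of `I` different from `r`: the
  determinant of the matrix over `ℚ[X]` with the rows `(δ_{l e} - δ_{t e}) + X (δ_{i e} - δ_{l e})`,
  `e : E`, where the column of `r` is deleted (for `i = ini`, `l = lab`, `t = ter` this is the Alexander
  polynomial of `L.G`, up to a unit of `ℤ[X, X⁻¹]`); `alexC L c σ`: this determinant for the outer edges
  and the classes, with `i = c ∘ ini`, `l = c ∘ lab`, `t = c ∘ ter`.
-/

set_option autoImplicit false

namespace Pool.Agent.Results.MP_cf50d6_gt.VertexWeights

open Pool.Agent.TH625.LOG Pool.Agent.N819.LT Pool.Agent.V5helper80.Rel Pool.Agent.V5helper80.One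
open Pool.Agent.V5helper80.Wt

open Classical in
/-- Let `L` be a labelled oriented tree, so that `K(L)` is a subcomplex of a contractible 2-complex with
one more 2-cell (last part).  Its group `π_1(K(L))` is locally indicable if there is a vertex `r`
and there are weights of the vertices such that every relation has a unique lightest vertex and all
vertices different from `r` occur as lightest vertices, or all with one exception, and in the latter
case `q (d - 1) + ∑ S ≤ ∑ m`, where `d` is the order at zero of the Alexander determinant.  The same holds
with `ini` and `ter` exchanged, where `d` is the number of edges minus the degree of the determinant.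
More generally this holds if the vertices are divided into classes which are subtrees containing
their labels, with locally indicable groups, for weights of the classes. -/
theorem result (V E I : Type) [Fintype V] [Fintype E] [Fintype I] (L : LOG V E)
    (hL : L.Conn) (hcard : Fintype.card V = Fintype.card E + 1) :
    (∀ (r : V) (σ : E ≃ {x : V // x ≠ r}),
      (Good L.ini L.lab L.ter r (alex σ ℚ L.ini L.lab L.ter).natTrailingDegree ∨
        Good L.ter L.lab L.ini r
          (Fintype.card E - (alex σ ℚ L.ini L.lab L.ter).natDegree)) → LocInd L.G) ∧
    (∀ c : V → I, Function.Surjective c → TreeP L c →
      (∀ v, LocInd (part L fun u => c u = c v).G) →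
      ∀ (r : I) (σ : Out L c ≃ {x : I // x ≠ r}),
        (Good (fun e : Out L c => c (L.ini e.1)) (fun e => c (L.lab e.1))
            (fun e => c (L.ter e.1)) r (alexC L c σ).natTrailingDegree ∨
          Good (fun e : Out L c => c (L.ter e.1)) (fun e => c (L.lab e.1))
            (fun e => c (L.ini e.1)) r
            (Fintype.card (Out L c) - (alexC L c σ).natDegree)) → LocInd L.G) ∧
    ∀ v : V, L.ContractibleWith v :=
  ⟨fun r σ h => locInd_wlot L hL hcard r σ h,
    fun c hc hT hLI r σ h => locInd_wlog L hL hcard c hc hT hLI r σ h,
    fun v => contractibleWith L hL hcard v⟩

end Pool.Agent.Results.MP_cf50d6_gt.VertexWeights
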